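import Mathlib
import Pool.Agent.Work.MP_cdfd58_co.Check

/-!
# The eviction number and the independence number of GP(7,2)
-/

set_option autoImplicit false

namespace Pool.Agent.Work.MP_cdfd58_co

open Finset

attribute [local irreducible] checkLose checkIndep table rk att attackOK domB

/-- The vertex set coded by a mask. -/
def dec (m : ℕ) : Finset (Fin 14) := univ.filter fun i => m.testBit i = true

lemma mem_dec {m : ℕ} {i : Fin 14} : i ∈ dec m ↔ m.testBit i = true := by simp [dec]

lemma dec_surj (S : Finset (Fin 14)) : ∃ m < 2 ^ 14, dec m = S := by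
  induction S using Finset.induction_on with
  | empty =>
    refine ⟨0, by norm_num, ?_⟩
    ext i; simp [mem_dec]
  | insert a S _ ih =>
    obtain ⟨m, hm, rfl⟩ := ih
    refine ⟨m ||| 2 ^ (a : ℕ), ?_, ?_⟩
    · apply Nat.or_lt_two_pow hm
      exact Nat.pow_lt_pow_right (by norm_num) a.2
    · ext i
      rw [mem_dec, Finset.mem_insert, mem_dec, Nat.testBit_or, Nat.testBit_two_pow]
      by_cases h : (a : ℕ) = i
      · have : i = a := Fin.ext h.symm
        simp [this]
      · have : i ≠ a := fun hh => h (by rw [hh])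
        simp [h, this]

lemma card_dec (m : ℕ) : #(dec m) = popc m := by
  unfold dec
  rw [Finset.card_filter]
  have h : ∀ i : Fin 14, (if m.testBit i = true then 1 else 0) = (m.testBit i).toNat := by
    intro i
    cases m.testBit i <;> rfl
  simp_rw [h]
  simp only [Fin.sum_univ_succ, Finset.univ_eq_empty, Finset.sum_empty]
  rfl

lemma mv_lt {m v w : ℕ} (hm : m < 2 ^ 14) (hv : v < 14) (hw : w < 14) : mv m v w < 2 ^ 14 := by
  unfold mv
  apply Nat.or_lt_two_pow
  · apply Nat.xor_lt_two_pow hm
    exact Nat.pow_lt_pow_right (by norm_num) hv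
  · exact Nat.pow_lt_pow_right (by norm_num) hw

lemma dec_mv {m : ℕ} {v w : Fin 14} (hv : v ∈ dec m) (hw : w ∉ dec m) :
    dec (mv m v w) = (insert w (dec m)) \ {v} := by
  ext i
  rw [mem_dec] at hv hw
  rw [mem_dec, Finset.mem_sdiff, Finset.mem_insert, Finset.mem_singleton, mem_dec, mv,
    Nat.testBit_or, Nat.testBit_xor, Nat.testBit_two_pow, Nat.testBit_two_pow]
  have hvw : w ≠ v := by rintro rfl; exact hw hv
  by_cases h1 : i = w
  · subst h1
    have : i ≠ v := hvw
    simp [this]
  · have h1' : ¬ ((w : ℕ) = i) := fun hh => h1 (Fin.ext hh.symm)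
    by_cases h2 : i = v
    · subst h2
      simp [hv, h1', h1]
    · have h2' : ¬ ((v : ℕ) = i) := fun hh => h2 (Fin.ext hh.symm)
      simp [h1, h2, h1', h2']

lemma checkLose_spec {m : ℕ} (hm : m < 2 ^ 14) : checkLose m = true := by
  have h1 := allB_spec checkLose_all (i := m / 128) (by omega)
  have h2 := allB_spec h1 (i := m % 128) (Nat.mod_lt _ (by norm_num))
  have e : 128 * (m / 128) + m % 128 = m := Nat.div_add_mod m 128
  rwa [e] at h2

lemma checkIndep_spec {m : ℕ} (hm : m < 2 ^ 14) : checkIndep m = true := by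
  have h1 := allB_spec checkIndep_all (i := m / 128) (by omega)
  have h2 := allB_spec h1 (i := m % 128) (Nat.mod_lt _ (by norm_num))
  have e : 128 * (m / 128) + m % 128 = m := Nat.div_add_mod m 128
  rwa [e] at h2

lemma domB_of_dominating {m : ℕ} (h : IsDominating GP (dec m)) : domB m = true := by
  have key : ∀ n ≤ 14, allB n (fun v => m.testBit v || (m &&& nb v) != 0) = true := by
    intro n
    induction n with
    | zero => intro _; rfl
    | succ n ih =>
      intro hn
      unfold allB
      rw [Bool.and_eq_true]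
      refine ⟨?_, ih (by omega)⟩
      rw [Bool.or_eq_true]
      rcases h ⟨n, by omega⟩ with h1 | ⟨u, hu, hadj⟩
      · left
        exact mem_dec.1 h1
      · right
        rw [bne_iff_ne]
        intro h0
        have h2 : (m &&& nb n).testBit u = true := by
          rw [Nat.testBit_and, mem_dec.1 hu]
          simpa [GP] using hadj
        rw [h0] at h2
        simp at h2
  unfold domB
  exact key 14 le_rfl

attribute [local irreducible] mv

/-- No eternal dominating family of sets with at most six elements. -/
theorem seven_le {k : ℕ} {F : Finset (Finset (Fin 14))} (hF : IsEternalFamily GP k F) : 7 ≤ k := by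
  classical
  by_contra hcon
  have hk : k ≤ 6 := by omega
  let M : Finset ℕ := (range (2 ^ 14)).filter fun m => dec m ∈ F
  have hM : M.Nonempty := by
    obtain ⟨D, hD⟩ := hF.nonempty
    obtain ⟨m, hm, rfl⟩ := dec_surj D
    exact ⟨m, Finset.mem_filter.2 ⟨Finset.mem_range.2 hm, hD⟩⟩
  obtain ⟨m, hmM, hmin⟩ := Finset.exists_min_image M rk hM
  obtain ⟨hmr, hmF⟩ := Finset.mem_filter.1 hmM
  rw [Finset.mem_range] at hmr
  have hlose := checkLose_spec hmr
  have hpop : ¬ (6 < popc m) := by
    rw [← card_dec, hF.card_eq _ hmF]; omega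
  have hdom := domB_of_dominating (hF.dominating _ hmF)
  unfold checkLose at hlose
  rw [hdom] at hlose
  simp only [hpop, decide_false, Bool.false_or, Bool.not_true] at hlose
  unfold attackOK at hlose
  rw [Bool.and_eq_true, Bool.and_eq_true, Bool.and_eq_true, decide_eq_true_eq] at hlose
  obtain ⟨⟨hatt, hbit⟩, hany, hall⟩ := hlose
  set v : Fin 14 := ⟨att m, hatt⟩ with hv
  have hvm : v ∈ dec m := mem_dec.2 hbit
  rcases hF.respond _ hmF v hvm with h1 | ⟨w, hadj, hw, hwF, -⟩
  · obtain ⟨w, hw, hp⟩ := anyB_spec hany
    rw [Bool.and_eq_true] at hp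
    have h2 := h1 ⟨w, hw⟩ (Or.inr hp.1)
    rw [mem_dec] at h2
    simp only at h2
    rw [h2] at hp
    simp at hp
  · have h3 := allB_spec hall w.2
    have hadj' : (nb (att m)).testBit w = true := hadj
    have hw' : m.testBit w = false := by
      rw [mem_dec] at hw
      simpa using hw
    rw [hadj', hw'] at h3
    simp only [Bool.not_true, Bool.false_or] at h3
    rw [Bool.or_eq_true, decide_eq_true_eq] at h3
    have hdec := dec_mv (v := v) (w := w) hvm hw
    have hv' : (v : ℕ) = att m := rfl
    rw [hv'] at hdec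
    have hmem : mv m (att m) w ∈ M := by
      refine Finset.mem_filter.2 ⟨Finset.mem_range.2 (mv_lt hmr hatt w.2), ?_⟩
      rw [hdec]; exact hwF
    rcases h3 with h3 | h3
    · have h4 : IsDominating GP (dec (mv m (att m) w)) := by
        rw [hdec]; exact hF.dominating _ hwF
      rw [domB_of_dominating h4] at h3
      simp at h3
    · have h5 := hmin _ hmem
      omega

/-- The family of transversals of the perfect matching `u_i v_i`. -/
def matchFam : Finset (Finset (Fin 14)) :=
  univ.filter fun D => ∀ i : Fin 14, (i ∈ D ↔ i + 7 ∉ D)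

lemma add_seven_seven (i : Fin 14) : i + 7 + 7 = i := by revert i; decide

lemma adj_add_seven (i : Fin 14) : GP.Adj i (i + 7) := by
  show (nb i).testBit ((i + 7 : Fin 14) : ℕ) = true
  revert i; decide

theorem matchFam_eternal : IsEternalFamily GP 7 matchFam := by
  classical
  refine ⟨⟨univ.filter fun i => (i : ℕ) < 7, ?_⟩, ?_, ?_, ?_⟩
  · unfold matchFam
    simp only [Finset.mem_filter, Finset.mem_univ, true_and]
    decide
  · intro D hD v
    have h := (Finset.mem_filter.1 hD).2
    by_cases hv : v ∈ D
    · exact Or.inl hv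
    · right
      refine ⟨v + 7, ?_, adj_add_seven v⟩
      by_contra h7
      exact hv ((h v).2 h7)
  · intro D hD
    have h := (Finset.mem_filter.1 hD).2
    have e1 : Dᶜ = D.map ⟨fun i => i + 7, fun a b hab => by simpa using hab⟩ := by
      ext i
      rw [Finset.mem_compl, Finset.mem_map]
      constructor
      · intro hi
        refine ⟨i + 7, ?_, add_seven_seven i⟩
        by_contra h7
        exact hi ((h i).2 h7)
      · rintro ⟨j, hj, rfl⟩
        exact (h j).1 hj
    have e2 : #Dᶜ = #D := by rw [e1, Finset.card_map]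
    have e3 := Finset.card_add_card_compl D
    rw [e2, Fintype.card_fin] at e3
    omega
  · intro D hD v hv
    right
    have h := (Finset.mem_filter.1 hD).2
    have hv7 : v + 7 ∉ D := (h v).1 hv
    have hne : v ≠ v + 7 := fun hh => hv7 (hh ▸ hv)
    refine ⟨v + 7, adj_add_seven v, hv7, ?_, ?_⟩
    · unfold matchFam
      rw [Finset.mem_filter]
      refine ⟨Finset.mem_univ _, fun i => ?_⟩
      simp only [Finset.mem_sdiff, Finset.mem_insert, Finset.mem_singleton]
      by_cases h1 : i = v
      · subst h1
        simp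
      · by_cases h2 : i = v + 7
        · subst h2
          rw [add_seven_seven]
          simp [hne.symm]
        · have h3 : i + 7 ≠ v + 7 := fun hh => h1 (by simpa using hh)
          have h4 : i + 7 ≠ v := fun hh => h2 (by rw [← hh, add_seven_seven])
          simp only [h1, h2, h3, h4, false_or, not_false_eq_true, and_true]
          exact h i
    · intro hh
      have : v ∈ (insert (v + 7) D) \ {v} := by rw [hh]; exact hv
      simp at this

theorem evictionNumber_GP : evictionNumber GP = 7 := by
  unfold evictionNumber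
  apply le_antisymm
  · exact Nat.sInf_le ⟨matchFam, matchFam_eternal⟩
  · apply le_csInf
    · exact ⟨7, matchFam, matchFam_eternal⟩
    · rintro k ⟨F, hF⟩
      exact seven_le hF

lemma card_le_five {S : Finset (Fin 14)} (hS : GP.IsIndepSet S) : #S ≤ 5 := by
  obtain ⟨m, hm, rfl⟩ := dec_surj S
  have h := checkIndep_spec hm
  unfold checkIndep at h
  rw [Bool.or_eq_true, decide_eq_true_eq] at h
  rcases h with h | h
  · rw [card_dec]; exact h
  · exfalso
    obtain ⟨v, hv, hp⟩ := anyB_spec h
    rw [Bool.and_eq_true, bne_iff_ne] at hp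
    obtain ⟨hbit, hne⟩ := hp
    obtain ⟨u, hu⟩ := Nat.exists_testBit_of_ne_zero hne
    rw [Nat.testBit_and, Bool.and_eq_true] at hu
    have hu14 : u < 14 := by
      by_contra hcon
      have : m.testBit u = false := Nat.testBit_lt_two_pow (lt_of_lt_of_le hm
        (Nat.pow_le_pow_right (by norm_num) (by omega)))
      rw [this] at hu
      simp at hu
    have h1 : (⟨v, hv⟩ : Fin 14) ∈ dec m := mem_dec.2 hbit
    have h2 : (⟨u, hu14⟩ : Fin 14) ∈ dec m := mem_dec.2 hu.1
    have hadj : GP.Adj ⟨v, hv⟩ ⟨u, hu14⟩ := hu.2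
    exact hS h1 h2 hadj.ne hadj

theorem indepNum_GP : GP.indepNum = 5 := by
  apply le_antisymm
  · obtain ⟨S, hS⟩ := GP.exists_isNIndepSet_indepNum
    rw [← hS.card_eq]
    exact card_le_five hS.isIndepSet
  · have h : GP.IsIndepSet (({0, 2, 4, 8, 12} : Finset (Fin 14)) : Set (Fin 14)) := by
      intro a ha b hb hab
      have key : ∀ a ∈ ({0, 2, 4, 8, 12} : Finset (Fin 14)), ∀ b ∈ ({0, 2, 4, 8, 12} :
          Finset (Fin 14)), (nb a).testBit b = false := by decide
      intro hadj
      have h1 := key a (by simpa using ha) b (by simpa using hb)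
      have h2 : (nb a).testBit b = true := hadj
      rw [h1] at h2
      simp at h2
    have := h.card_le_indepNum
    simpa using this

lemma parent_adj : ∀ i : Fin 14, i ≠ 0 → ∃ j : Fin 14, j < i ∧ (nb i).testBit j = true := by
  decide

theorem connected_GP : GP.Connected := by
  have h : ∀ n : ℕ, ∀ i : Fin 14, (i : ℕ) = n → GP.Reachable i 0 := by
    intro n
    induction n using Nat.strong_induction_on with
    | _ n ih =>
      intro i hi
      by_cases h0 : i = 0
      · rw [h0]
      · obtain ⟨j, hj, hadj⟩ := parent_adj i h0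
        have h1 : GP.Adj i j := hadj
        exact h1.reachable.trans (ih j (by rw [← hi]; exact hj) j rfl)
  refine ⟨fun a b => ?_⟩
  exact (h a a rfl).trans (h b b rfl).symm

end Pool.Agent.Work.MP_cdfd58_co
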