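import Mathlib

/-!
# The eviction number of a graph
-/

set_option autoImplicit false

namespace Pool.Agent.Work.MP_cdfd58_co

open Finset

variable {V : Type*} [DecidableEq V]

/-- `D` is a dominating set: every vertex is in `D` or has a neighbour in `D`. -/
def IsDominating (G : SimpleGraph V) (D : Finset V) : Prop :=
  ∀ v, v ∈ D ∨ ∃ u ∈ D, G.Adj v u

/-- `F` is an eternal dominating family of `G` in the eviction game, consisting of sets of
size `k`: a nonempty finite collection of dominating sets of size `k` such that for every
`D ∈ F` and `v ∈ D` either the closed neighbourhood of `v` is contained in `D`, or there is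
a neighbour `w ∉ D` of `v` such that `(D ∪ {w}) \ {v}` is another member of `F`. -/
structure IsEternalFamily (G : SimpleGraph V) (k : ℕ) (F : Finset (Finset V)) : Prop where
  nonempty : F.Nonempty
  dominating : ∀ D ∈ F, IsDominating G D
  card_eq : ∀ D ∈ F, #D = k
  respond : ∀ D ∈ F, ∀ v ∈ D, (∀ w, w = v ∨ G.Adj v w → w ∈ D) ∨
    ∃ w, G.Adj v w ∧ w ∉ D ∧ (insert w D) \ {v} ∈ F ∧ (insert w D) \ {v} ≠ D

/-- The eviction number: the smallest common size of the sets of an eternal dominating family
in the eviction game. -/
noncomputable def evictionNumber (G : SimpleGraph V) : ℕ :=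
  sInf {k | ∃ F : Finset (Finset V), IsEternalFamily G k F}

end Pool.Agent.Work.MP_cdfd58_co
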